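import Pool.Agent.W624.NDst3

/-!
# The New Doomsday Conjecture for all `Sq⁰`-families with `Sq¹ x` not `Sq⁰`-nilpotent

`Ext s` is the Adams `s`-line, the cohomology of the cobar complex `Cob` of the mod 2 dual Steenrod
algebra; `Sq0`, `h0` and `Sq1` are the squaring operation, the multiplication by `h₀` and the
operation `Sq¹` (given by the cup-`(s-1)` square of a cocycle).

For every line there is a bound `J`, depending only on `s`, such that

* `h₀` times the `(j+1)`-st member of a `Sq⁰`-family is non-zero for all `j ≥ J`, unless the `j`-th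
  member of the family is zero;
* for every `d₂` which satisfies Bruner's formula `d₂ (Sq⁰ x) = h₀ Sq¹ x` for classes `x` of even
  internal degree (as the Adams differential does), and for every class `x` on the `s`-line, a member
  `x_j` with `j ≥ J` of the `Sq⁰`-family of `x` is a `d₂`-cycle if and only if
  `(Sq⁰)^J (Sq¹ x) = 0`.

In particular, if `Sq¹ x` is not killed by any power of `Sq⁰`, no `x_j` with `j ≥ J` survives.
-/

set_option autoImplicit false

namespace Pool.Agent.Results.MP_701abf_gt.SqOneFamilies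

open Pool.Agent.W624.NS

theorem result (s : ℕ) : ∃ J : ℕ,
    (∀ (y : Ext (s + 1)) (j : ℕ), J ≤ j →
      h0 (s + 1) ((Sq0 (s + 1))^[j + 1] y) = 0 → (Sq0 (s + 1))^[j] y = 0) ∧
    ∀ d₂ : (n : ℕ) → Ext n → Ext (n + 2),
      (∀ (n t : ℕ) (x : Z n), Even t → IsHom n t x.1 →
        d₂ n (Sq0 n (cl x)) = h0 (n + 1) (cl (Sq1 n x))) →
      ∀ (t : ℕ) (x : Z s), IsHom s t x.1 → ∀ j, J ≤ j →
        (d₂ s ((Sq0 s)^[j] (cl x)) = 0 ↔ (Sq0 (s + 1))^[J] (cl (Sq1 s x)) = 0) := by
  obtain ⟨J0, hJ0⟩ := h0_iter s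
  obtain ⟨r, hr⟩ := nil_iter s
  have up : ∀ (y : Ext (s + 1)) (a b : ℕ), a ≤ b → (Sq0 (s + 1))^[a] y = 0 →
      (Sq0 (s + 1))^[b] y = 0 := by
    intro y a b hab h
    obtain ⟨c, rfl⟩ := Nat.exists_eq_add_of_le hab
    rw [add_comm a c, Function.iterate_add_apply, h]
    exact Sq0_iter_zero _ _
  refine ⟨J0 + r + 2, fun y j hj h => hJ0 y j (by omega) h, fun d₂ hd t x hx j hj => ?_⟩
  obtain ⟨k, rfl⟩ : ∃ k, j = k + 2 := ⟨j - 2, by omega⟩
  have hev : Even (2 ^ (k + 1) * t) := by
    rw [pow_succ, mul_comm (2 ^ k) 2, mul_assoc]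
    exact even_two_mul _
  have hw := isHom_iter x hx (k + 1)
  have hf : d₂ s ((Sq0 s)^[k + 2] (cl x))
      = h0 (s + 1) ((Sq0 (s + 1))^[k + 1] (cl (Sq1 s x))) := by
    rw [show k + 2 = (k + 1) + 1 from rfl, Function.iterate_succ_apply', Sq0_iter,
      hd s _ _ hev hw, Sq1_iter, Sq0_iter]
  rw [hf]
  constructor
  · intro h
    have h1 := hJ0 (cl (Sq1 s x)) k (by omega) h
    exact up _ r _ (by omega) (hr _ _ h1)
  · intro h
    have h1 := hr _ _ h
    rw [up _ r (k + 1) (by omega) h1, h0_zero]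

end Pool.Agent.Results.MP_701abf_gt.SqOneFamilies
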